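import Pool.Agent.Helper5.FRD.Goals

/-!
# Project FRD (MP_79b960_co), packet FIN
-/

set_option autoImplicit false

namespace Pool.Agent.Helper13.FRD.FIN

open Finset
open Pool.Agent.Helper5.FRC Pool.Agent.Helper5.FRD

section

variable {V : Type} [DecidableEq V]

theorem fx_union (P : V → V) {S T : Finset V} (h : Disjoint S T) :
    fx P (S ∪ T) = fx P S + fx P T := by
  unfold fx
  rw [filter_union, card_union_of_disjoint (disjoint_filter_filter h)]

theorem cir_sub {n : Equiv.Perm V} {C S : Finset V} (hC : Cir n C) (hS : Inv n S) {x : V}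
    (hx : x ∈ C) (hxS : x ∈ S) : C ⊆ S := by
  have h1 : C ∩ S = C := by
    refine hC.2.2 (C ∩ S) inter_subset_left ⟨x, mem_inter.mpr ⟨hx, hxS⟩⟩ ?_
    intro y hy
    rw [mem_inter] at hy ⊢
    exact ⟨hC.2.1 y hy.1, hS y hy.2⟩
  rw [← h1]
  exact inter_subset_right

/-- the decomposition of a closed set -/
theorem decomp {n : Equiv.Perm V} {A : Finset V} {t : V → V} {C : Fin 4 → Finset V}
    {Z : Finset V} (hF : Five n A t C Z) {P : V → V} {Y : Finset V}
    (hf : ∀ i, fx P (C i) = 1) (h4 : ∀ i, 4 ≤ dm t (C i \ Y))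
    (h1 : ∀ i, 1 ≤ dm t ((C i ∪ Z) \ Y)) {S : Finset V} (hSA : S ⊆ A) (hS : Inv n S) :
    (Odd S.card → Odd (univ.filter fun i => C i ⊆ S).card) ∧
    fx P S = (univ.filter fun i => C i ⊆ S).card + (if Z ⊆ S then fx P Z else 0) ∧
    ((univ.filter fun i => C i ⊆ S).card = 1 → 1 ≤ dm t (S \ Y) ∧
      (¬ Z ⊆ S → 4 ≤ dm t (S \ Y))) := by
  obtain ⟨hn, hA, hB, hC, hO, hD, hZ, hE, hDZ, hAU⟩ := hF
  let I : Finset (Fin 4) := univ.filter fun i => C i ⊆ S
  let W : Finset V := if Z ⊆ S then Z else ∅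
  have hI : ∀ i, i ∈ I ↔ C i ⊆ S := fun i => by simp [I]
  have hSU : S = I.biUnion C ∪ W := by
    ext x
    constructor
    · intro hx
      have hxA := hSA hx
      rw [hAU, mem_union, mem_biUnion] at hxA
      rcases hxA with ⟨i, -, hi⟩ | hz
      · exact mem_union_left _ (mem_biUnion.mpr ⟨i, (hI i).mpr (cir_sub (hC i) hS hi hx), hi⟩)
      · have hZS : Z ⊆ S := cir_sub hZ hS hz hx
        have e : W = Z := if_pos hZS
        rw [e]
        exact mem_union_right _ hz
    · intro hx
      rw [mem_union, mem_biUnion] at hx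
      rcases hx with ⟨i, hi, hxi⟩ | hz
      · exact (hI i).mp hi hxi
      · by_cases hZS : Z ⊆ S
        · have e : W = Z := if_pos hZS
          rw [e] at hz
          exact hZS hz
        · have e : W = ∅ := if_neg hZS
          rw [e] at hz
          exact absurd hz (notMem_empty _)
  have hdis : Disjoint (I.biUnion C) W := by
    rw [disjoint_biUnion_left]
    intro i _
    by_cases hZS : Z ⊆ S
    · have e : W = Z := if_pos hZS
      rw [e]
      exact hDZ i
    · have e : W = ∅ := if_neg hZS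
      rw [e]
      exact disjoint_empty_right _
  have hpd : ((I : Finset (Fin 4)) : Set (Fin 4)).PairwiseDisjoint C := by
    intro i _ j _ hij
    exact hD i j hij
  have hcard : S.card = ∑ i ∈ I, (C i).card + W.card := by
    conv_lhs => rw [hSU]
    rw [card_union_of_disjoint hdis, card_biUnion hpd]
  have hWe : Even W.card := by
    by_cases hZS : Z ⊆ S
    · have e : W = Z := if_pos hZS
      rw [e]
      exact hE
    · have e : W = ∅ := if_neg hZS
      rw [e]
      exact ⟨0, rfl⟩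
  refine ⟨?_, ?_, ?_⟩
  · intro hodd
    rw [hcard, Nat.odd_add'] at hodd
    have h2 : Odd (∑ i ∈ I, (C i).card) := by
      by_contra h3
      rw [Nat.not_odd_iff_even] at h3
      have := hodd.mpr h3
      exact (Nat.not_odd_iff_even.mpr hWe) this
    rw [Finset.odd_sum_iff_odd_card_odd] at h2
    rwa [filter_true_of_mem (fun i _ => hO i)] at h2
  · have h2 : fx P (I.biUnion C) = I.card := by
      unfold fx
      rw [filter_biUnion, card_biUnion]
      · rw [Finset.card_eq_sum_ones]
        refine sum_congr rfl fun i _ => ?_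
        exact hf i
      · intro i _ j _ hij
        exact disjoint_filter_filter (hD i j hij)
    have h3 : fx P W = if Z ⊆ S then fx P Z else 0 := by
      by_cases hZS : Z ⊆ S
      · have e : W = Z := if_pos hZS
        rw [e, if_pos hZS]
      · have e : W = ∅ := if_neg hZS
        rw [e, if_neg hZS]
        rfl
    rw [← h3]
    conv_lhs => rw [hSU]
    rw [fx_union P hdis, h2]
  · intro hc
    obtain ⟨i, hi⟩ := card_eq_one.mp hc
    have hIi : I = {i} := hi
    rw [hIi, singleton_biUnion] at hSU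
    by_cases hZS : Z ⊆ S
    · have e : W = Z := if_pos hZS
      rw [e] at hSU
      refine ⟨?_, fun h => absurd hZS h⟩
      rw [hSU]
      exact h1 i
    · have e : W = ∅ := if_neg hZS
      rw [e, union_empty] at hSU
      have h5 := h4 i
      rw [← hSU] at h5
      exact ⟨by omega, fun _ => h5⟩

end

theorem t : FinStmt := by
  intro V _ _ n A t C Z hF P Y hY hP hYc hfp hf hfz h4 h1
  refine ⟨P, Y, hY, hP, hYc, hfp, ?_⟩
  intro S hS S' hS' hI hI' hO hO' hd
  obtain ⟨a1, a2, a3⟩ := decomp hF hf h4 h1 hS hI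
  obtain ⟨b1, b2, b3⟩ := decomp hF hf h4 h1 hS' hI'
  obtain ⟨c1, c2, c3⟩ := decomp hF hf h4 h1 (Subset.refl A) (by
    intro x hx
    obtain ⟨hn, hA, hB, hC, hO, hD, hZ, hE, hDZ, hAU⟩ := hF
    rw [hAU, mem_union, mem_biUnion] at hx ⊢
    rcases hx with ⟨i, hi, hxi⟩ | hz
    · exact Or.inl ⟨i, hi, (hC i).2.1 x hxi⟩
    · exact Or.inr (hZ.2.1 x hz))
  obtain ⟨hn, hA, hB, hC, hOC, hD, hZ, hE, hDZ, hAU⟩ := hF
  have hCA : ∀ i, C i ⊆ A := by
    intro i x hx
    rw [hAU]
    exact mem_union_left _ (mem_biUnion.mpr ⟨i, mem_univ _, hx⟩)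
  have hZA : Z ⊆ A := by
    rw [hAU]
    exact subset_union_right
  rw [filter_true_of_mem (fun i _ => hCA i), if_pos hZA, card_univ, Fintype.card_fin] at c2
  have hs := a1 hO
  have hs' := b1 hO'
  obtain ⟨s, hse⟩ : ∃ s, s = (univ.filter fun i => C i ⊆ S).card := ⟨_, rfl⟩
  obtain ⟨s', hse'⟩ : ∃ s', s' = (univ.filter fun i => C i ⊆ S').card := ⟨_, rfl⟩
  have hle : s + s' ≤ 4 := by
    have hdd : Disjoint (univ.filter fun i => C i ⊆ S) (univ.filter fun i => C i ⊆ S') := by
      rw [disjoint_left]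
      intro i hi hi'
      rw [mem_filter] at hi hi'
      obtain ⟨x, hx⟩ := (hC i).1
      exact disjoint_left.mp hd (hi.2 hx) (hi'.2 hx)
    rw [hse, hse', ← card_union_of_disjoint hdd]
    exact le_trans (card_le_univ _) (le_of_eq (Fintype.card_fin 4))
  have hZZ : ¬ (Z ⊆ S ∧ Z ⊆ S') := by
    rintro ⟨h5, h6⟩
    obtain ⟨x, hx⟩ := hZ.1
    exact disjoint_left.mp hd (h5 hx) (h6 hx)
  rw [← hse] at hs a2 a3
  rw [← hse'] at hs' b2 b3
  rw [c2, a2, b2]
  obtain ⟨k, hk⟩ := hs
  obtain ⟨k', hk'⟩ := hs'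
  by_cases z1 : Z ⊆ S
  · have z2 : ¬ Z ⊆ S' := fun h => hZZ ⟨z1, h⟩
    rw [if_pos z1, if_neg z2]
    rcases Nat.lt_or_ge s' 2 with h5 | h5
    · have h6 := (b3 (by omega)).2 z2
      omega
    · have h6 := (a3 (by omega)).1
      omega
  · by_cases z2 : Z ⊆ S'
    · rw [if_neg z1, if_pos z2]
      rcases Nat.lt_or_ge s 2 with h5 | h5
      · have h6 := (a3 (by omega)).2 z1
        omega
      · have h6 := (b3 (by omega)).1
        omega
    · rw [if_neg z1, if_neg z2]
      rcases Nat.lt_or_ge s 2 with h5 | h5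
      · have h6 := (a3 (by omega)).2 z1
        rcases Nat.lt_or_ge s' 2 with h7 | h7
        · have h8 := (b3 (by omega)).2 z2
          omega
        · omega
      · have h6 := (b3 (by omega)).2 z2
        omega

end Pool.Agent.Helper13.FRD.FIN
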